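import Mathlib
import Pool.Agent.H32.SepDeg

set_option autoImplicit false

namespace Pool.Agent.Results.MP_b358a5_co.Separate

open MvPolynomial

/-- `P d`: nonzero polynomials in countably many variables with coefficients in `ℕ`,
zero constant term and degree at most `d` in each variable. -/
def P (d : ℕ) : Set (MvPolynomial ℕ ℕ) :=
  {f | f ≠ 0 ∧ coeff 0 f = 0 ∧ ∀ i, degreeOf i f ≤ d}

/-- `a` is a copy of the pattern `F` in `S`. -/
def IsCopy {k m : ℕ} (F : Fin k → MvPolynomial (Fin m) ℕ) (S : Set (MvPolynomial ℕ ℕ))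
    (a : Fin m → MvPolynomial ℕ ℕ) : Prop :=
  (∀ i, a i ∈ S) ∧ ∀ l, aeval a (F l) ∈ S

/-- `F` is partition regular over `S`. -/
def PR {k m : ℕ} (F : Fin k → MvPolynomial (Fin m) ℕ) (S : Set (MvPolynomial ℕ ℕ)) : Prop :=
  ∀ (r : ℕ) (c : MvPolynomial ℕ ℕ → Fin r), ∃ a, IsCopy F S a ∧ ∃ col, ∀ l, c (aeval a (F l)) = col

/-- `F` is partition regular over `S`, with pairwise distinct values. -/
def PRDistinct {k m : ℕ} (F : Fin k → MvPolynomial (Fin m) ℕ) (S : Set (MvPolynomial ℕ ℕ)) :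
    Prop :=
  ∀ (r : ℕ) (c : MvPolynomial ℕ ℕ → Fin r), ∃ a, IsCopy F S a ∧
    (Function.Injective fun l => aeval a (F l)) ∧ ∃ col, ∀ l, c (aeval a (F l)) = col

theorem result (i j : ℕ) (hi : 1 ≤ i) (hij : i < j) :
    ∃ (k m : ℕ) (F : Fin k → MvPolynomial (Fin m) ℕ), (∀ l, coeff 0 (F l) = 0) ∧
      (∃ a, IsCopy F (P i) a) ∧ PRDistinct F (P j) ∧ ¬ PR F (P i) := by
  open Pool.Agent.H32.SepDeg in
  have hX : ∀ v d, 1 ≤ d → (X v : MvPolynomial ℕ ℕ) ∈ P d := fun v d hd => by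
    simpa [P] using goodX 1 v d one_ne_zero hd
  refine ⟨2, 4, ![C 4 * X 0 + C 1 * X 1 + X 0 ^ i * X 1 * X 2,
    C 2 * X 0 + C 2 * X 1 + X 0 ^ i * X 1 * X 3], ?_, ?_, ?_, ?_⟩
  · intro l
    change constantCoeff _ = 0
    fin_cases l <;> simp
  · refine ⟨![X 0, C 1 * X 1, X 2, X 2], fun l => ?_, fun l => ?_⟩
    · fin_cases l <;> simp [hX _ _ hi]
    · have h1 := good 4 1 1 0 1 2 i i (by norm_num) hi (fun t => by split_ifs <;> omega)
      have h2 := good 2 2 1 0 1 2 i i (by norm_num) hi (fun t => by split_ifs <;> omega)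
      fin_cases l
      · simpa [P, map_ofNat] using h1
      · simpa [P, map_ofNat] using h2
  · intro r c
    let f : ℕ → MvPolynomial ℕ ℕ := fun k =>
      C 4 * X 0 + C 1 * (C 2 * X 0) + X 0 ^ i * (C 2 * X 0) * X (k + 1)
    have hf : ∀ k, C 2 * X 0 + C 2 * (C 2 * X 0) + X 0 ^ i * (C 2 * X 0) * X (k + 1) = f k := by
      intro k
      simp only [f, map_ofNat, map_one]
      ring
    have hP : ∀ k, f k ∈ P j := fun k =>
      good 4 1 2 0 0 (k + 1) i j (by norm_num) (by omega) (fun t => by split_ifs <;> omega)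
    obtain ⟨k, l, hkl, h⟩ := Finite.exists_ne_map_eq_of_infinite (fun k => c (f k))
    have e : ∀ s : Fin 2, aeval ![X 0, C 2 * X 0, X (k + 1), X (l + 1)]
        (![C 4 * X 0 + C 1 * X 1 + X 0 ^ i * X 1 * X 2,
          C 2 * X 0 + C 2 * X 1 + X 0 ^ i * X 1 * X 3] s : MvPolynomial (Fin 4) ℕ) =
        ![f k, f l] s := by
      intro s
      fin_cases s
      · simp [f, map_ofNat]
      · simp [← hf, map_ofNat]
    have hne : f k ≠ f l := by
      rw [← hf l]
      exact distinct i k l hkl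
    refine ⟨![X 0, C 2 * X 0, X (k + 1), X (l + 1)], ⟨fun s => ?_, fun s => ?_⟩, ?_, c (f k),
      fun s => ?_⟩
    · fin_cases s
      exacts [hX _ _ (by omega), goodX 2 0 j (by norm_num) (by omega), hX _ _ (by omega),
        hX _ _ (by omega)]
    · rw [e]
      fin_cases s
      exacts [hP k, hP l]
    · intro s t
      simp only [e]
      fin_cases s <;> fin_cases t <;> simp [hne, hne.symm]
    · rw [e]
      fin_cases s
      exacts [rfl, h.symm]
  · intro h
    obtain ⟨a, ⟨h1, h2⟩, cc, hc⟩ := h 2 col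
    have h3 := (h2 0).2.2
    have h4 := (hc 0).trans (hc 1).symm
    simp only [Matrix.cons_val_zero, Matrix.cons_val_one, map_add, map_mul, map_pow, aeval_X,
      aeval_C, algebraMap_eq] at h3 h4
    exact main i _ _ _ _ (h1 0).1 (h1 0).2.1 (h1 2).1 (h1 2).2.1 (h1 3).2.1 h3 h4

end Pool.Agent.Results.MP_b358a5_co.Separate
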